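import Pool.Agent.W851.BE.Stm

/-!
# Project BE, part S_EXH: the fixed point inequality for discs, lower bound
-/

open Polynomial Topology Filter MeasureTheory
open scoped ENNReal

namespace Pool.Agent.W805.BE

open Pool.Agent.W95.BK Pool.Agent.W851.BE

universe u

/-- `P - X Q` and `Q` are non-zero. -/
lemma ne_zero_aux {K : Type u} [Field K] (f : RMap K) (hd : 2 ≤ f.d) :
    f.P - X * f.Q ≠ 0 ∧ f.Q ≠ 0 := by
  have hQ : f.Q ≠ 0 := by
    intro h
    have hc := f.cop
    rw [h, isCoprime_zero_right] at hc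
    have h1 : f.P.natDegree = 0 := natDegree_eq_zero_of_isUnit hc
    have h2 := f.deg_eq
    rw [h, h1] at h2
    simp at h2
    omega
  refine ⟨fun h => ?_, hQ⟩
  have hP : f.P = X * f.Q := sub_eq_zero.1 h
  have hc := f.cop
  rw [hP] at hc
  have hu : IsUnit f.Q := hc.isUnit_of_dvd' (Dvd.intro_left _ rfl) dvd_rfl
  have h1 : f.Q.natDegree = 0 := natDegree_eq_zero_of_isUnit hu
  have h2 := f.deg_eq
  rw [hP, natDegree_mul X_ne_zero hQ, natDegree_X, h1] at h2
  simp at h2
  omega

theorem main : S_N0.{u} → S_CR2.{u} → S_EQ.{u} → S_NT3.{u} → S_IRC.{u} → S_ZT.{u} →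
    S_LDEX.{u} → S_ISO.{u} → S_GLAM.{u} → S_NWI.{u} → S_CENTER.{u} → S_EXH.{u} := by
  intro hN0 hCR2 hEQ hNT3 hIRC hZT hLDEX hISO hGLAM hNWI hCEN K _ _ _ f a r hd
  classical
  -- monotonicity of `Nw`
  have mono : ∀ (a : K) (r r' : ℝ), 0 < r → r ≤ r' → Nw f a r ≤ Nw f a r' :=
    fun a r r' h h' => (hNWI K f a r h).2.2.2.1 r' h'
  have ultra : ∀ x y z : K, ∀ s : ℝ, ‖x - y‖ < s → ‖y - z‖ < s → ‖x - z‖ < s := by
    intro x y z s h1 h2
    have : x - z = (x - y) + (y - z) := by ring
    rw [this]
    exact (IsUltrametricDist.norm_add_le_max _ _).trans_lt (max_lt h1 h2)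
  obtain ⟨hne, hQne⟩ := ne_zero_aux f hd
  obtain ⟨C0, hC0⟩ : ∃ C0 : Finset K, ∀ w : K,
      ((f.P - X * f.Q).eval w = 0 ∨ f.Q.eval w = 0) → w ∈ C0 := by
    refine ⟨(f.P - X * f.Q).roots.toFinset ∪ f.Q.roots.toFinset, fun w hw => ?_⟩
    rw [Finset.mem_union, Multiset.mem_toFinset, Multiset.mem_toFinset, mem_roots hne,
      mem_roots hQne]
    exact hw
  have key : ∀ (k : ℕ) (a : K) (r : ℝ), 0 < r → Nw f a r = k →
      ∃ (I : Finset (BA K)) (Cl : Finset K) (S : Finset (BA K)),
      (∀ x ∈ I, XF f x ∧ lam x a < r) ∧ (∀ c ∈ Cl, CR f c ∧ ‖c - a‖ < r) ∧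
      (∀ x ∈ S, PB f x ∧ lam x a < r) ∧
      k ≤ ∑ x ∈ I, localDeg f (x : P1B K) + Cl.card + S.card := by
    intro k
    induction k using Nat.strong_induction_on with
    | _ k IH =>
    intro a r hr hk
    rcases Nat.eq_zero_or_pos k with hk0 | hk0
    · exact ⟨∅, ∅, ∅, by simp, by simp, by simp, by simp [hk0]⟩
    -- the radii
    let T : K → Set ℝ := fun w => {t | 0 < t ∧ t ≤ r ∧ Nw f w t = k}
    have hTbdd : ∀ w, BddBelow (T w) := fun w => ⟨0, fun t ht => ht.1.le⟩
    have hTne : ∀ w : K, ‖w - a‖ < r → r ∈ T w := by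
      intro w hw
      exact ⟨hr, le_rfl, by rw [hCEN K f w a r hw, hk]⟩
    obtain ⟨w0, hw0, hw0'⟩ := hN0 K f a r hr (by omega)
    let C1 := C0.filter (fun w => ‖w - a‖ < r)
    have hC1ne : C1.Nonempty := ⟨w0, Finset.mem_filter.2 ⟨hC0 w0 hw0', hw0⟩⟩
    obtain ⟨a', ha', hmin⟩ := C1.exists_min_image (fun w => sInf (T w)) hC1ne
    have ha'a : ‖a' - a‖ < r := (Finset.mem_filter.1 ha').2
    set t0 := sInf (T a') with ht0
    have ht0r : t0 ≤ r := csInf_le (hTbdd a') (hTne a' ha'a)
    have ht00 : 0 ≤ t0 := Real.sInf_nonneg fun t ht => ht.1.le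
    have hNwr : Nw f a' r = k := (hTne a' ha'a).2.2
    have habove : ∀ t, t0 < t → t ≤ r → Nw f a' t = k := by
      intro t ht1 ht2
      obtain ⟨t1, ht1', ht1''⟩ := exists_lt_of_csInf_lt ⟨r, hTne a' ha'a⟩ ht1
      have h1 := mono a' t1 t ht1'.1 ht1''.le
      have h2 := mono a' t r (by linarith [ht1'.1]) ht2
      rw [ht1'.2.2] at h1
      omega
    rcases ht00.eq_or_lt with h0 | h0
    · -- the case `t0 = 0`
      have hall : ∀ t, 0 < t → k ≤ Nw f a' t := by
        intro t ht
        rcases le_total t r with h | h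
        · exact (habove t (by rw [← h0]; exact ht) h).ge
        · have := mono a' r t hr h
          omega
      obtain ⟨h1, h2⟩ := hCR2 K f a' k hk0 hall
      refine ⟨∅, {a'}, ∅, by simp, ?_, by simp, by simp [h2]⟩
      intro c hc
      rw [Finset.mem_singleton] at hc
      rw [hc]
      exact ⟨h1, ha'a⟩
    · -- `t0 > 0`
      have hrt : t0 < r := by
        rcases ht0r.eq_or_lt with h | h
        · exfalso
          obtain ⟨s, hs0, hsr, hs⟩ := (hNWI K f a' r hr).2.2.2.2.1
          have hm : (s + r) / 2 ∈ T a' := by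
            refine ⟨by linarith, by linarith, ?_⟩
            rw [hs _ (by linarith) (by linarith), hNwr]
          have := csInf_le (hTbdd a') hm
          rw [← ht0, h] at this
          linarith
        · exact h
      have hball : ∀ z : K, ‖z - a'‖ ≤ t0 → ‖z - a‖ < r := fun z hz =>
        ultra z a' a r (hz.trans_lt hrt) ha'a
      have hlt : ∀ z : K, ‖z - a'‖ ≤ t0 → Nw f z t0 < k := by
        intro z hz
        have hza := hball z hz
        have h1 : Nw f z t0 ≤ k := by
          have := mono z t0 r h0 hrt.le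
          rwa [hCEN K f z a r hza, hk] at this
        refine lt_of_le_of_ne h1 fun heq => ?_
        obtain ⟨s, hs0, hsr, hs⟩ := (hNWI K f z t0 h0).2.2.2.2.1
        have hst : Nw f z ((s + t0) / 2) = k := by
          rw [hs _ (by linarith) (by linarith), heq]
        obtain ⟨w, hw1, hw2⟩ := hN0 K f z ((s + t0) / 2) (by linarith) (by omega)
        have hwa : ‖w - a‖ < r := ultra w z a r (hw1.trans (by linarith)) hza
        have hwT : (s + t0) / 2 ∈ T w := by
          refine ⟨by linarith, by linarith, ?_⟩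
          rw [hCEN K f w z _ hw1, hst]
        have h2 : t0 ≤ sInf (T w) := hmin w (Finset.mem_filter.2 ⟨hC0 w hw2, hwa⟩)
        have h3 := csInf_le (hTbdd w) hwT
        linarith
      -- `t0` is in the value group
      obtain ⟨c, hc⟩ : ∃ c : K, ‖c‖ = t0 := by
        by_contra hcon
        obtain ⟨r', hr', hN⟩ := hNT3 K f a' t0 h0 hcon
        have hm1 : t0 < min r' r := lt_min hr' hrt
        have h1 := hN ((t0 + min r' r) / 2) (by linarith)
          (by linarith [min_le_left r' r])
        have h2 := habove ((t0 + min r' r) / 2) (by linarith) (by linarith [min_le_right r' r])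
        have h3 := hlt a' (by simp [h0.le])
        omega
      obtain ⟨Z, ⟨hZ1, hZ2⟩, hfix, hnfix⟩ := hEQ K f a' c t0 h0 hc
      have hkI : k ≤ Iw f a' t0 := by
        obtain ⟨r', hr', hI⟩ := hIRC K f a' t0 h0
        have hm1 : t0 < min r' r := lt_min hr' hrt
        have h1 := hI ((t0 + min r' r) / 2) (by linarith)
          (by linarith [min_le_left r' r])
        have h2 := habove ((t0 + min r' r) / 2) (by linarith) (by linarith [min_le_right r' r])
        have h3 := (hNWI K f a' ((t0 + min r' r) / 2) (by linarith)).1.2.2.2.1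
        omega
      -- the induction hypothesis
      have hIH : ∀ z : K, ∃ (I : Finset (BA K)) (Cl : Finset K) (S : Finset (BA K)), z ∈ Z →
          (∀ x ∈ I, XF f x ∧ lam x z < t0) ∧ (∀ c ∈ Cl, CR f c ∧ ‖c - z‖ < t0) ∧
          (∀ x ∈ S, PB f x ∧ lam x z < t0) ∧
          Nw f z t0 ≤ ∑ x ∈ I, localDeg f (x : P1B K) + Cl.card + S.card := by
        intro z
        by_cases hz : z ∈ Z
        · obtain ⟨I, Cl, S, h⟩ := IH (Nw f z t0) (hlt z (hZ1 z hz)) z t0 h0 rfl
          exact ⟨I, Cl, S, fun _ => h⟩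
        · exact ⟨∅, ∅, ∅, fun h => absurd h hz⟩
      choose I Cl S hICS using hIH
      have hlamd : ∀ x : BA K, ∀ z ∈ Z, ∀ z' ∈ Z, lam x z < t0 → lam x z' < t0 → z = z' := by
        intro x z hz z' hz' h1 h2
        by_contra hne'
        have h3 := hZ2 z hz z' hz' hne'
        have h4 := (hISO K x z z').2.1
        exact absurd (h3.trans h4) (not_le.2 (max_lt h1 h2))
      have hlam : ∀ x : BA K, ∀ z ∈ Z, lam x z < t0 → lam x a < r := by
        intro x z hz h1
        have h2 := (hISO K x a z).1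
        refine h2.trans_lt (max_lt (h1.trans hrt) ?_)
        rw [norm_sub_rev]
        exact hball z (hZ1 z hz)
      have hdI : (Z : Set K).PairwiseDisjoint I := by
        intro z hz z' hz' hne'
        rw [Function.onFun, Finset.disjoint_left]
        intro x hx hx'
        exact hne' (hlamd x z hz z' hz' ((hICS z hz).1 x hx).2 ((hICS z' hz').1 x hx').2)
      have hdS : (Z : Set K).PairwiseDisjoint S := by
        intro z hz z' hz' hne'
        rw [Function.onFun, Finset.disjoint_left]
        intro x hx hx'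
        exact hne' (hlamd x z hz z' hz' ((hICS z hz).2.2.1 x hx).2 ((hICS z' hz').2.2.1 x hx').2)
      have hdC : (Z : Set K).PairwiseDisjoint Cl := by
        intro z hz z' hz' hne'
        rw [Function.onFun, Finset.disjoint_left]
        intro x hx hx'
        have h1 := ((hICS z hz).2.1 x hx).2
        have h2 := ((hICS z' hz').2.1 x hx').2
        have h3 := hZ2 z hz z' hz' hne'
        have h4 := ultra z x z' t0 (by rw [norm_sub_rev]; exact h1) h2
        linarith
      have hsum : ∑ z ∈ Z, Nw f z t0 ≤ ∑ x ∈ Z.biUnion I, localDeg f (x : P1B K) +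
          (Z.biUnion Cl).card + (Z.biUnion S).card := by
        rw [Finset.sum_biUnion hdI, Finset.card_biUnion hdC, Finset.card_biUnion hdS,
          ← Finset.sum_add_distrib, ← Finset.sum_add_distrib]
        exact Finset.sum_le_sum fun z hz => (hICS z hz).2.2.2
      have hI' : ∀ x ∈ Z.biUnion I, XF f x ∧ lam x a < r := by
        intro x hx
        obtain ⟨z, hz, hxz⟩ := Finset.mem_biUnion.1 hx
        exact ⟨((hICS z hz).1 x hxz).1, hlam x z hz ((hICS z hz).1 x hxz).2⟩
      have hS' : ∀ x ∈ Z.biUnion S, PB f x ∧ lam x a < r := by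
        intro x hx
        obtain ⟨z, hz, hxz⟩ := Finset.mem_biUnion.1 hx
        exact ⟨((hICS z hz).2.2.1 x hxz).1, hlam x z hz ((hICS z hz).2.2.1 x hxz).2⟩
      have hC' : ∀ x ∈ Z.biUnion Cl, CR f x ∧ ‖x - a‖ < r := by
        intro x hx
        obtain ⟨z, hz, hxz⟩ := Finset.mem_biUnion.1 hx
        have h1 := (hICS z hz).2.1 x hxz
        exact ⟨h1.1, ultra x z a r (h1.2.trans hrt) (hball z (hZ1 z hz))⟩
      -- the point `x0 = ζ_{a',t0}`
      have hlx : ∀ z ∈ Z, lam (gauss a' t0 h0) z = t0 := by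
        intro z hz
        rw [(hGLAM K a' z).2 t0 h0, norm_sub_rev]
        exact max_eq_right (hZ1 z hz)
      have hxI : gauss a' t0 h0 ∉ Z.biUnion I := by
        intro hx
        obtain ⟨z, hz, hxz⟩ := Finset.mem_biUnion.1 hx
        have := ((hICS z hz).1 _ hxz).2
        rw [hlx z hz] at this
        exact lt_irrefl _ this
      have hxS : gauss a' t0 h0 ∉ Z.biUnion S := by
        intro hx
        obtain ⟨z, hz, hxz⟩ := Finset.mem_biUnion.1 hx
        have := ((hICS z hz).2.2.1 _ hxz).2
        rw [hlx z hz] at this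
        exact lt_irrefl _ this
      have hxa : lam (gauss a' t0 h0) a < r := by
        rw [(hGLAM K a' a).2 t0 h0]
        exact max_lt ha'a hrt
      by_cases hf : f.act (zt a' t0) = zt a' t0
      · have h1 := hfix hf
        have hf' := hf
        rw [zt_pos a' h0] at hf'
        obtain ⟨m, hm1, -, hm⟩ := hLDEX K f (gauss a' t0 h0) ((hZT K).2.2.1 a' t0 h0)
        have hmz : localDeg f (zt a' t0) = m := by rw [zt_pos a' h0]; exact hm
        rw [hmz] at h1
        by_cases hm2 : 2 ≤ m
        · refine ⟨insert (gauss a' t0 h0) (Z.biUnion I), Z.biUnion Cl, Z.biUnion S, ?_, hC', hS',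
            ?_⟩
          · intro x hx
            rcases Finset.mem_insert.1 hx with h | h
            · rw [h]
              exact ⟨⟨⟨a', t0, h0, ⟨c, hc⟩, rfl⟩, hf', by rw [hm]; exact hm2⟩, hxa⟩
            · exact hI' x h
          · rw [Finset.sum_insert hxI, hm]
            omega
        · have hm' : m = 1 := by omega
          by_cases hle : k ≤ ∑ z ∈ Z, Nw f z t0
          · exact ⟨Z.biUnion I, Z.biUnion Cl, Z.biUnion S, hI', hC', hS', hle.trans hsum⟩
          · refine ⟨Z.biUnion I, Z.biUnion Cl, insert (gauss a' t0 h0) (Z.biUnion S), hI', hC',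
              ?_, ?_⟩
            · intro x hx
              rcases Finset.mem_insert.1 hx with h | h
              · rw [h]
                refine ⟨⟨a', t0, h0, rfl, h0, ⟨c, hc⟩, hf, by rw [hmz, hm'], ?_⟩, hxa⟩
                intro r' hr'
                have h4 : k ≤ Nw f a' r' := by
                  rcases le_total r' r with h | h
                  · exact (habove r' hr' h).ge
                  · have := mono a' r r' hr h
                    omega
                omega
              · exact hS' x h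
            · rw [Finset.card_insert_of_notMem hxS]
              omega
      · have h1 := hnfix hf
        exact ⟨Z.biUnion I, Z.biUnion Cl, Z.biUnion S, hI', hC', hS', by omega⟩
  intro hr
  obtain ⟨I, Cl, S, h1, h2, h3, h4⟩ := key (Nw f a r) a r hr rfl
  exact ⟨I, Cl, S, h1, h2, h3, h4⟩

end Pool.Agent.W805.BE
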